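import Mathlib

/-!
# 3-torsion in multilinear degree in the lower central series of free rings

Over `ℤ`, the element `[x₄, x₅·[[x₁,x₃],x₂]]` of `L₃(A_n(ℤ))`, `n ≥ 5`, is not in `L₄`, but three
times it is.  Hence `B₃(A_n(ℤ)) = L₃/L₄` contains an element of order exactly `3` of multidegree
`(1,1,1,1,1,0,…,0)`, and the order of a torsion element need not divide its degree in a variable.
-/

namespace Pool.Agent.Results.MP_426edc_al.MultilinearThreeTorsion

/-- The free associative unital algebra `A_n(ℤ)` on the generators `x_i = ι i`, `i : Fin n`. -/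
abbrev A (n : ℕ) := FreeAlgebra ℤ (Fin n)

/-- The bracket `[a,b] = ab - ba`. -/
noncomputable def br {n : ℕ} (a b : A n) : A n := a * b - b * a

/-- The lower central series of `A_n(ℤ)` as a Lie ring: `L n 1 = A_n(ℤ)` and `L n (k+1)` is the
additive subgroup spanned by all `[a,b]` with `a` in `A_n(ℤ)` and `b` in `L n k` (`k ≥ 1`).
The value at index `0` is irrelevant. -/
noncomputable def L (n : ℕ) : ℕ → AddSubgroup (A n)
  | 0 => ⊤
  | 1 => ⊤
  | (k + 2) => AddSubgroup.closure {z | ∃ a b : A n, b ∈ L n (k + 1) ∧ z = br a b}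

/-- `B_ℓ(A_n(ℤ)) = L_ℓ / L_{ℓ+1}`. -/
def B (n l : ℕ) : Type := (L n l) ⧸ ((L n (l + 1)).addSubgroupOf (L n l))

noncomputable instance instB (n l : ℕ) : AddCommGroup (B n l) :=
  QuotientAddGroup.Quotient.addCommGroup ((L n (l + 1)).addSubgroupOf (L n l))

/-- The projection `L_ℓ → B_ℓ = L_ℓ / L_{ℓ+1}`. -/
noncomputable def cls (n l : ℕ) : L n l →+ B n l :=
  QuotientAddGroup.mk' ((L n (l + 1)).addSubgroupOf (L n l))

/-- The noncommutative monomial `x_{w₁} x_{w₂} ⋯`. -/
noncomputable def mon {n : ℕ} (w : List (Fin n)) : A n := (w.map (FreeAlgebra.ι ℤ)).prod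

/-- The component of `A_n(ℤ)` of multidegree `d`: it is spanned by the monomials in which each
generator `x_i` occurs exactly `d i` times. -/
noncomputable def multiA (n : ℕ) (d : Fin n → ℕ) : AddSubgroup (A n) :=
  AddSubgroup.closure {z | ∃ w : List (Fin n), (∀ i, w.count i = d i) ∧ z = mon w}

/-- The component `B_ℓ[d]` of `B_ℓ(A_n(ℤ))`: the classes of the elements of `L_ℓ` which are
homogeneous of multidegree `d`. -/
noncomputable def multiB (n l : ℕ) (d : Fin n → ℕ) : AddSubgroup (B n l) :=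
  ((multiA n d).addSubgroupOf (L n l)).map (cls n l)

/-- The elements of `B_ℓ(A_n(ℤ))` of degree `m` with respect to `x_j`: the sum of the components
`B_ℓ[d]` with `d j = m`. -/
noncomputable def degB (n l : ℕ) (j : Fin n) (m : ℕ) : AddSubgroup (B n l) :=
  ⨆ (d : Fin n → ℕ) (_ : d j = m), multiB n l d

/-- The first five generators `X h 0, …, X h 4` of `A_n(ℤ)`, `n ≥ 5`. -/
noncomputable def X {n : ℕ} (h : 5 ≤ n) (i : Fin 5) : A n := FreeAlgebra.ι ℤ (Fin.castLE h i)

/-- The element `[x₄, x₅·[[x₁,x₃],x₂]]`, where `x₁,…,x₅` are `X h 0, …, X h 4`. -/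
noncomputable def wit (n : ℕ) (h : 5 ≤ n) : A n :=
  br (X h 3) (X h 4 * br (br (X h 0) (X h 2)) (X h 1))

/-- The multidegree `(1,1,1,1,1,0,…,0)`. -/
def deg1 (n : ℕ) : Fin n → ℕ := fun i => if i.val < 5 then 1 else 0

/-! ### The functional -/

/-- words with value `1` -/
def plus : List (List ℕ) :=
  [[0, 1, 2, 3, 4], [0, 4, 3, 1, 2], [1, 0, 2, 4, 3], [1, 2, 4, 3, 0], [1, 4, 3, 0, 2],
   [2, 3, 0, 1, 4], [3, 0, 4, 2, 1], [3, 4, 2, 1, 0], [4, 1, 0, 2, 3], [4, 1, 2, 3, 0],
   [4, 3, 1, 0, 2]]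

/-- words with value `-1` -/
def minus : List (List ℕ) :=
  [[0, 1, 4, 3, 2], [0, 2, 3, 1, 4], [1, 0, 4, 2, 3], [1, 2, 3, 0, 4], [1, 4, 2, 3, 0],
   [2, 1, 0, 4, 3], [2, 1, 4, 3, 0], [2, 3, 1, 0, 4], [3, 0, 2, 4, 1], [3, 2, 4, 1, 0],
   [4, 3, 0, 1, 2]]

/-- The functional on words, with values in `{0, 1, -1}`. -/
def g (w : List ℕ) : ℤ := if w ∈ plus then 1 else if w ∈ minus then -1 else 0

theorem g_eq_zero {w : List ℕ} (h : ¬ w.Perm [0, 1, 2, 3, 4]) : g w = 0 := by
  unfold g
  have h1 : ∀ v ∈ plus, v.Perm [0, 1, 2, 3, 4] := by decide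
  have h2 : ∀ v ∈ minus, v.Perm [0, 1, 2, 3, 4] := by decide
  rw [if_neg (fun hw => h (h1 w hw)), if_neg (fun hw => h (h2 w hw))]

/-- The alternating sum giving the value of the functional at `[a,[b,[c,d]]]`. -/
def alt (a b c d : List ℕ) : ℤ :=
  g (a ++ b ++ c ++ d) - g (a ++ b ++ d ++ c) - g (a ++ c ++ d ++ b) + g (a ++ d ++ c ++ b)
  - g (b ++ c ++ d ++ a) + g (b ++ d ++ c ++ a) + g (c ++ d ++ b ++ a) - g (d ++ c ++ b ++ a)

/-- The finite check. -/
theorem check : ∀ l ∈ List.permutations' [0, 1, 2, 3, 4],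
    ∀ p ∈ [(2, 1, 1), (1, 2, 1), (1, 1, 2), (1, 1, 1)],
      alt (l.take p.1) ((l.drop p.1).take p.2.1) (((l.drop p.1).drop p.2.1).take p.2.2)
        (((l.drop p.1).drop p.2.1).drop p.2.2) % 3 = 0 := by
  decide +kernel

theorem alt_mod (a b c d : List ℕ) : (3 : ℤ) ∣ alt a b c d := by
  by_cases hp : (a ++ b ++ c ++ d).Perm [0, 1, 2, 3, 4]
  · rcases Nat.eq_zero_or_pos a.length with ha | ha
    · have : a = [] := List.length_eq_zero_iff.1 ha
      subst this
      have h0 : alt [] b c d = 0 := by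
        simp only [alt, List.nil_append, List.append_nil, List.append_assoc]
        ring
      rw [h0]
      exact dvd_zero _
    rcases Nat.eq_zero_or_pos b.length with hb | hb
    · have : b = [] := List.length_eq_zero_iff.1 hb
      subst this
      simp [alt]
    rcases Nat.eq_zero_or_pos c.length with hc | hc
    · have : c = [] := List.length_eq_zero_iff.1 hc
      subst this
      simp [alt]
    rcases Nat.eq_zero_or_pos d.length with hd | hd
    · have : d = [] := List.length_eq_zero_iff.1 hd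
      subst this
      simp [alt]
    have hlen : a.length + b.length + c.length + d.length = 5 := by
      have := hp.length_eq
      simpa [add_assoc] using this
    have hmem : (a ++ b ++ c ++ d) ∈ List.permutations' [0, 1, 2, 3, 4] :=
      List.mem_permutations'.2 hp
    have hpp : (a.length, b.length, c.length) ∈
        [(2, 1, 1), (1, 2, 1), (1, 1, 2), (1, 1, 1)] := by
      have h1 : a.length ≤ 2 := by omega
      have h2 : b.length ≤ 2 := by omega
      have h3 : c.length ≤ 2 := by omega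
      interval_cases a.length <;> interval_cases b.length <;> interval_cases c.length <;>
        first
          | decide
          | (exfalso; omega)
    have key := check _ hmem _ hpp
    have e1 : (a ++ b ++ c ++ d).take a.length = a := by simp [List.append_assoc]
    have e2 : (a ++ b ++ c ++ d).drop a.length = b ++ c ++ d := by simp [List.append_assoc]
    have e3 : (b ++ c ++ d).take b.length = b := by simp [List.append_assoc]
    have e4 : (b ++ c ++ d).drop b.length = c ++ d := by simp [List.append_assoc]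
    have e5 : (c ++ d).take c.length = c := by simp
    have e6 : (c ++ d).drop c.length = d := by simp
    simp only [e1, e2, e3, e4, e5, e6] at key
    exact Int.dvd_of_emod_eq_zero key
  · have z : ∀ w : List ℕ, w.Perm (a ++ b ++ c ++ d) → g w = 0 := fun w hw =>
      g_eq_zero (fun h => hp (hw.symm.trans h))
    have : alt a b c d = 0 := by
      unfold alt
      rw [z _ (List.Perm.refl _), z (a ++ b ++ d ++ c), z (a ++ c ++ d ++ b),
        z (a ++ d ++ c ++ b), z (b ++ c ++ d ++ a), z (b ++ d ++ c ++ a), z (c ++ d ++ b ++ a),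
        z (d ++ c ++ b ++ a)]
      · norm_num
      all_goals
        rw [← Multiset.coe_eq_coe]
        simp only [← Multiset.coe_add]
        abel
    rw [this]
    exact dvd_zero _


/-- The additive functional on `A_n(ℤ)` extending `g`. -/
noncomputable def F (n : ℕ) : A n →+ ℤ :=
  ((FreeAlgebra.basisFreeMonoid ℤ (Fin n)).constr ℤ
    (fun w => g ((FreeMonoid.toList w).map Fin.val))).toAddMonoidHom

theorem basis_apply {n : ℕ} (w : List (Fin n)) :
    FreeAlgebra.basisFreeMonoid ℤ (Fin n) (FreeMonoid.ofList w) = mon w := by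
  have h : ∀ v : FreeMonoid (Fin n), (FreeAlgebra.equivMonoidAlgebraFreeMonoid
      (R := ℤ) (X := Fin n)).symm (MonoidAlgebra.single v 1) =
      FreeMonoid.lift (FreeAlgebra.ι ℤ) v := by
    intro v
    simp [FreeAlgebra.equivMonoidAlgebraFreeMonoid]
    exact one_smul ℤ _
  have h2 := h (FreeMonoid.ofList w)
  rw [FreeMonoid.lift_ofList] at h2
  unfold mon
  rw [← h2]
  simp [FreeAlgebra.basisFreeMonoid]

theorem F_mon {n : ℕ} (w : List (Fin n)) : F n (mon w) = g (w.map Fin.val) := by
  rw [← basis_apply]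
  exact Module.Basis.constr_basis (FreeAlgebra.basisFreeMonoid ℤ (Fin n)) ℤ
    (fun w => g ((FreeMonoid.toList w).map Fin.val)) (FreeMonoid.ofList w)

theorem mon_append {n : ℕ} (u v : List (Fin n)) : mon (u ++ v) = mon u * mon v := by
  simp [mon]

theorem closure_mon (n : ℕ) (a : A n) :
    a ∈ AddSubgroup.closure (Set.range (mon : List (Fin n) → A n)) := by
  have h : ∀ c : FreeMonoid (Fin n) →₀ ℤ,
      (FreeAlgebra.basisFreeMonoid ℤ (Fin n)).repr.symm c ∈
        AddSubgroup.closure (Set.range (mon : List (Fin n) → A n)) := by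
    intro c
    induction c using Finsupp.induction_linear with
    | zero => rw [map_zero]; exact zero_mem _
    | add f g hf hg => rw [map_add]; exact add_mem hf hg
    | single w k =>
      rw [Module.Basis.repr_symm_single]
      have : FreeAlgebra.basisFreeMonoid ℤ (Fin n) w = mon (FreeMonoid.toList w) :=
        basis_apply (FreeMonoid.toList w)
      rw [this]
      have hk : k • (mon (FreeMonoid.toList w) : A n) ∈
          AddSubgroup.closure (Set.range (mon : List (Fin n) → A n)) := by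
        have h1 : (mon (FreeMonoid.toList w) : A n) ∈
            AddSubgroup.closure (Set.range (mon : List (Fin n) → A n)) :=
          AddSubgroup.subset_closure ⟨_, rfl⟩
        have := AddSubgroup.zsmul_mem _ h1 k
        convert this using 1
      exact hk
  have := h ((FreeAlgebra.basisFreeMonoid ℤ (Fin n)).repr a)
  rwa [LinearEquiv.symm_apply_apply] at this

/-- If `L n k` is generated by `S`, then `L n (k+1)` is generated by the brackets of monomials
with elements of `S`. -/
theorem L_succ_le {n k : ℕ} {S : Set (A n)} (h : L n (k + 1) ≤ AddSubgroup.closure S) :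
    L n (k + 2) ≤ AddSubgroup.closure
      {z | ∃ (w : List (Fin n)) (s : A n), s ∈ S ∧ z = mon w * s - s * mon w} := by
  change AddSubgroup.closure {z | ∃ a b : A n, b ∈ L n (k + 1) ∧ z = br a b} ≤ _
  rw [AddSubgroup.closure_le]
  rintro z ⟨a, b, hb, rfl⟩
  unfold br
  have ha := closure_mon n a
  have hb' := h hb
  induction ha using AddSubgroup.closure_induction with
  | zero => simp
  | add x y _ _ hx hy =>
    have : (x + y) * b - b * (x + y) = (x * b - b * x) + (y * b - b * y) := by noncomm_ring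
    rw [this]
    exact add_mem hx hy
  | neg x _ hx =>
    have : (-x) * b - b * (-x) = -(x * b - b * x) := by noncomm_ring
    rw [this]
    exact neg_mem hx
  | mem x hx =>
    obtain ⟨w, rfl⟩ := hx
    clear hb
    induction hb' using AddSubgroup.closure_induction with
    | zero => simp
    | add x y _ _ hx hy =>
      have : mon w * (x + y) - (x + y) * mon w =
        (mon w * x - x * mon w) + (mon w * y - y * mon w) := by noncomm_ring
      rw [this]
      exact add_mem hx hy
    | neg x _ hx =>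
      have : mon w * (-x) - (-x) * mon w = -(mon w * x - x * mon w) := by noncomm_ring
      rw [this]
      exact neg_mem hx
    | mem x hx => exact AddSubgroup.subset_closure ⟨w, x, hx, rfl⟩

/-- The functional `F` takes values divisible by `3` on `L₄`. -/
theorem F_L4 (n : ℕ) {z : A n} (hz : z ∈ L n 4) : (3 : ℤ) ∣ F n z := by
  have h1 : L n (0 + 1) ≤ AddSubgroup.closure (Set.range (mon : List (Fin n) → A n)) :=
    fun a _ => closure_mon n a
  have h2 := L_succ_le h1
  have h3 := L_succ_le (k := 1) h2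
  have h4 := L_succ_le (k := 2) h3
  have h5 := h4 hz
  clear h1 h2 h3 h4 hz
  induction h5 using AddSubgroup.closure_induction with
  | zero => simp
  | add x y _ _ hx hy => rw [map_add]; exact dvd_add hx hy
  | neg x _ hx => rw [map_neg]; exact (dvd_neg).2 hx
  | mem x hx =>
    obtain ⟨a, s, ⟨b, t, ⟨c, u, ⟨d, rfl⟩, rfl⟩, rfl⟩, rfl⟩ := hx
    have e : mon a * (mon b * (mon c * mon d - mon d * mon c) -
          (mon c * mon d - mon d * mon c) * mon b) -
        (mon b * (mon c * mon d - mon d * mon c) -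
          (mon c * mon d - mon d * mon c) * mon b) * mon a =
        mon (a ++ b ++ c ++ d) - mon (a ++ b ++ d ++ c) - mon (a ++ c ++ d ++ b)
          + mon (a ++ d ++ c ++ b) - mon (b ++ c ++ d ++ a) + mon (b ++ d ++ c ++ a)
          + mon (c ++ d ++ b ++ a) - (mon (d ++ c ++ b ++ a) : A n) := by
      simp only [mon_append]
      noncomm_ring
    rw [e]
    simp only [map_sub, map_add, F_mon, List.map_append]
    exact alt_mod (a.map Fin.val) (b.map Fin.val) (c.map Fin.val) (d.map Fin.val)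


theorem br_mem' {n k : ℕ} (a : A n) {b : A n} (hb : b ∈ L n (k + 1)) :
    br a b ∈ L n (k + 2) :=
  AddSubgroup.subset_closure ⟨a, b, hb, rfl⟩

theorem mem_L1 {n : ℕ} (a : A n) : a ∈ L n 1 := AddSubgroup.mem_top a

/-- Antitonicity: `L_{k+1} ≤ L_k`. -/
theorem L_succ_le_L (n k : ℕ) : L n (k + 2) ≤ L n (k + 1) := by
  induction k with
  | zero => exact fun a _ => mem_L1 a
  | succ k ih =>
    change AddSubgroup.closure {z | ∃ a b : A n, b ∈ L n (k + 2) ∧ z = br a b} ≤ _
    rw [AddSubgroup.closure_le]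
    rintro z ⟨a, b, hb, rfl⟩
    exact br_mem' a (ih hb)

/-- The element `[e, b·[[x,y],a]]`. -/
noncomputable def T {n : ℕ} (e b x y a : A n) : A n := br e (b * br (br x y) a)

theorem T_eq {n : ℕ} (e b x y a : A n) :
    T e b x y a = br (br x y * e) (br a b) + br (e * br a b) (br x y)
      - br e (br a (b * br x y)) := by
  simp only [T, br]
  noncomm_ring

theorem T_mem {n : ℕ} (e b x y a : A n) : T e b x y a ∈ L n 3 := by
  rw [T_eq]
  refine sub_mem (add_mem ?_ ?_) ?_
  · exact br_mem' _ (br_mem' _ (mem_L1 _))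
  · exact br_mem' _ (br_mem' _ (mem_L1 _))
  · exact br_mem' _ (br_mem' _ (mem_L1 _))

/-- iterated bracket -/
noncomputable def q {n : ℕ} (a b c d : A n) : A n := br a (br b (br c d))

theorem q_mem {n : ℕ} (a b c d : A n) : q a b c d ∈ L n 4 :=
  br_mem' _ (br_mem' _ (br_mem' _ (mem_L1 _)))

/-- Three times `T` as an explicit combination of brackets of length four. -/
theorem three_T {n : ℕ} (p0 p1 p2 p3 p4 : A n) :
    T p3 p4 p0 p2 p1 + T p3 p4 p0 p2 p1 + T p3 p4 p0 p2 p1 =
      q p0 (p4 * p1) p2 p3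
        + q p2 p1 p3 (p4 * p0)
        + q p4 (p1 * p3) p0 p2
        + q p4 p3 (p0 * p1) p2
        + q p3 p2 (p0 * p4) p1
        + q p3 p2 (p0 * p4) p1
        + q p3 (p2 * p1) p0 p4
        + q p4 (p1 * p0) p2 p3
        + q (p2 * p1) p3 p0 p4
        + q (p0 * p3) p2 p1 p4
        + q p0 p3 p1 (p4 * p2)
        + q (p2 * p4) p1 p0 p3
        + q p2 p0 (p1 * p3) p4
        - q p0 p1 p3 (p4 * p2)
        - q p0 p2 p1 (p3 * p4)
        - q p3 p4 p0 (p1 * p2)
        - q p3 p2 p0 (p4 * p1)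
        - q p3 p2 p0 (p4 * p1)
        - q (p0 * p4) p1 p2 p3
        - q p3 p1 (p0 * p4) p2
        - q p3 p1 (p0 * p4) p2
        - q (p0 * p1) p2 p3 p4
        - q (p3 * p4) p1 p0 p2
        - q p4 (p1 * p2) p0 p3
        - q p3 p1 (p2 * p0) p4
        - q p4 p0 (p2 * p1) p3
        - q (p3 * p2) p0 p1 p4 := by
  simp only [T, q, br, mul_sub, sub_mul, mul_assoc]
  abel

theorem three_T_mem {n : ℕ} (p0 p1 p2 p3 p4 : A n) : (3 : ℕ) • T p3 p4 p0 p2 p1 ∈ L n 4 := by
  have h3 : (3 : ℕ) • T p3 p4 p0 p2 p1 =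
      T p3 p4 p0 p2 p1 + T p3 p4 p0 p2 p1 + T p3 p4 p0 p2 p1 := by
    rw [show (3 : ℕ) = 2 + 1 from rfl, add_nsmul, two_nsmul, one_nsmul]
  rw [h3, three_T]
  exact
    sub_mem (sub_mem (sub_mem (sub_mem (sub_mem (sub_mem (sub_mem (sub_mem (sub_mem (sub_mem
    (sub_mem (sub_mem (sub_mem (sub_mem (add_mem (add_mem (add_mem (add_mem (add_mem (add_mem
    (add_mem (add_mem (add_mem (add_mem (add_mem (add_mem (q_mem _ _ _ _) (q_mem _ _ _ _))
    (q_mem _ _ _ _)) (q_mem _ _ _ _)) (q_mem _ _ _ _)) (q_mem _ _ _ _)) (q_mem _ _ _ _)) (q_mem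
    _ _ _ _)) (q_mem _ _ _ _)) (q_mem _ _ _ _)) (q_mem _ _ _ _)) (q_mem _ _ _ _)) (q_mem _ _ _
    _)) (q_mem _ _ _ _)) (q_mem _ _ _ _)) (q_mem _ _ _ _)) (q_mem _ _ _ _)) (q_mem _ _ _ _))
    (q_mem _ _ _ _)) (q_mem _ _ _ _)) (q_mem _ _ _ _)) (q_mem _ _ _ _)) (q_mem _ _ _ _)) (q_mem
    _ _ _ _)) (q_mem _ _ _ _)) (q_mem _ _ _ _)) (q_mem _ _ _ _)

theorem T_eq_mon {n : ℕ} (e b x y a : Fin n) :
    T (FreeAlgebra.ι ℤ e) (FreeAlgebra.ι ℤ b) (FreeAlgebra.ι ℤ x) (FreeAlgebra.ι ℤ y)
      (FreeAlgebra.ι ℤ a) =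
    mon [e, b, x, y, a] - mon [e, b, a, x, y] + mon [e, b, a, y, x] - mon [e, b, y, x, a]
      - mon [b, x, y, a, e] + mon [b, a, x, y, e] - mon [b, a, y, x, e]
      + (mon [b, y, x, a, e] : A n) := by
  simp only [T, br, mon, List.map_cons, List.map_nil, List.prod_cons, List.prod_nil, mul_one,
    mul_sub, sub_mul, mul_assoc]
  abel

theorem mon_mem {n : ℕ} (w : List (Fin n)) (h : (w.map Fin.val).Perm [0, 1, 2, 3, 4]) :
    (mon w : A n) ∈ multiA n (deg1 n) := by
  refine AddSubgroup.subset_closure ⟨w, fun i => ?_, rfl⟩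
  have h1 : (w.map Fin.val).count i.val = w.count i :=
    List.count_map_of_injective w Fin.val Fin.val_injective i
  rw [← h1, h.count_eq]
  unfold deg1
  split_ifs with hi
  · have : i.val = 0 ∨ i.val = 1 ∨ i.val = 2 ∨ i.val = 3 ∨ i.val = 4 := by omega
    rcases this with h | h | h | h | h <;> rw [h] <;> decide
  · rw [List.count_eq_zero]
    intro hm
    simp only [List.mem_cons, List.not_mem_nil, or_false] at hm
    omega

theorem T_multi {n : ℕ} (h : 5 ≤ n) :
    T (X h 3) (X h 4) (X h 0) (X h 2) (X h 1) ∈ multiA n (deg1 n) := by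
  unfold X
  rw [T_eq_mon]
  refine add_mem (sub_mem (add_mem (sub_mem (sub_mem (add_mem (sub_mem ?_ ?_) ?_) ?_) ?_) ?_) ?_) ?_
  all_goals
    apply mon_mem
    simp only [List.map_cons, List.map_nil, Fin.val_castLE]
    decide

theorem F_T {n : ℕ} (h : 5 ≤ n) :
    F n (T (X h 3) (X h 4) (X h 0) (X h 2) (X h 1)) = 1 := by
  unfold X
  rw [T_eq_mon]
  simp only [map_sub, map_add, F_mon, List.map_cons, List.map_nil, Fin.val_castLE]
  decide

theorem wit_mem (n : ℕ) (h : 5 ≤ n) : wit n h ∈ L n 3 := T_mem _ _ _ _ _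

/-- The class in `B₃(A_n(ℤ)) = L₃/L₄` of the element `wit n h = [x₄, x₅·[[x₁,x₃],x₂]]` of `L₃`. -/
noncomputable def witB (n : ℕ) (h : 5 ≤ n) : B n 3 := cls n 3 ⟨wit n h, wit_mem n h⟩

/-- **Main result.**  For every `n ≥ 5` the class `witB n h` in `B₃(A_n(ℤ)) = L₃/L₄` of the element
`[x₄, x₅·[[x₁,x₃],x₂]]` of `L₃` (`x₁,…,x₅` being the first five generators) has order exactly `3`
and lies in the component of multidegree `(1,1,1,1,1,0,…,0)`.  So for each of these five
generators `x_j` it is a torsion element of degree `m = 1` with respect to `x_j` whose order does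
not divide `m`. -/
theorem result (n : ℕ) (h : 5 ≤ n) :
    addOrderOf (witB n h) = 3 ∧ witB n h ∈ multiB n 3 (deg1 n) ∧
    ∀ j : Fin n, j.val < 5 → witB n h ∈ degB n 3 j 1 ∧ ¬ (addOrderOf (witB n h) ∣ 1) := by
  have hT : wit n h = T (X h 3) (X h 4) (X h 0) (X h 2) (X h 1) := rfl
  have hm : witB n h ∈ multiB n 3 (deg1 n) := by
    refine AddSubgroup.mem_map.2 ⟨⟨_, wit_mem n h⟩, ?_, rfl⟩
    rw [AddSubgroup.mem_addSubgroupOf]
    exact T_multi h
  have hker : ∀ t : L n 3, cls n 3 t = 0 ↔ (t : A n) ∈ L n 4 := by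
    intro t
    have h1 : cls n 3 t = 0 ↔ t ∈ (L n (3 + 1)).addSubgroupOf (L n 3) :=
      QuotientAddGroup.eq_zero_iff t
    rw [h1, AddSubgroup.mem_addSubgroupOf]
  have ho : addOrderOf (witB n h) = 3 := by
    have : Fact (Nat.Prime 3) := ⟨by norm_num⟩
    refine addOrderOf_eq_prime ?_ ?_
    · unfold witB
      rw [← map_nsmul, hker]
      exact three_T_mem _ _ _ _ _
    · intro h0
      unfold witB at h0
      rw [hker] at h0
      have h1 := F_L4 n h0
      change (3 : ℤ) ∣ F n (wit n h) at h1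
      rw [hT, F_T h] at h1
      omega
  refine ⟨ho, hm, fun j hj => ⟨?_, ?_⟩⟩
  · exact (le_iSup₂_of_le (f := fun (d : Fin n → ℕ) (_ : d j = 1) => multiB n 3 d)
      (deg1 n) (if_pos hj) le_rfl : multiB n 3 (deg1 n) ≤ _) hm
  · rw [ho]
    omega

end Pool.Agent.Results.MP_426edc_al.MultilinearThreeTorsion
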